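import Mathlib
import Pool.Agent.MP_fab550_an.H76.Limit

set_option autoImplicit false

namespace Pool.Agent.MP_fab550_an.H99

open Pool.Agent.MP_fab550_an.H76 MeasureTheory Metric Filter Topology Set

lemma good_line (G : E → ℝ) (hG : Measurable G) (C : ℝ) (hG0 : ∀ y, 0 ≤ G y)
    (hC : ∀ y, |G y| ≤ C) (z v : E) (hv : ‖v‖ = 1) (h : ℝ) (hh : 0 < h) (P : E → Prop)
    (hP : ∀ᵐ y, P y) :
    ∃ y ∈ closedBall z h, P y ∧ ∫ s in (0 : ℝ)..h, G (y + s • v) ≤
      4 * h * ⨍ y in closedBall z (2 * h), G y := by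
  have hfin : ∀ r, volume (closedBall z r) ≠ ⊤ := fun r => measure_closedBall_lt_top.ne
  have : IsFiniteMeasure (volume.restrict (closedBall z h)) := isFiniteMeasure_restrict.2 (hfin h)
  have hmeas : Measurable (fun p : E × ℝ => G (p.1 + p.2 • v)) := hG.comp (by fun_prop)
  have hint : Integrable (Function.uncurry (fun (y : E) (s : ℝ) => G (y + s • v)))
      ((volume.restrict (closedBall z h)).prod (volume.restrict (Ioc (0 : ℝ) h))) :=
    Integrable.of_bound hmeas.aestronglyMeasurable C (ae_of_all _ (fun p => hC _))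
  have hswap := integral_integral_swap hint
  have hGi : IntegrableOn G (closedBall z (2 * h)) volume :=
    Measure.integrableOn_of_bounded (M := C) (hfin _) hG.aestronglyMeasurable
      (ae_of_all _ (fun y => hC y))
  have hinner : ∀ s ∈ Ioc (0 : ℝ) h, ∫ y in closedBall z h, G (y + s • v) ≤
      ∫ y in closedBall z (2 * h), G y := by
    intro s hs
    rw [← integral_indicator measurableSet_closedBall, ← integral_indicator measurableSet_closedBall,
      ← integral_add_right_eq_self ((closedBall z (2 * h)).indicator G) (s • v)]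
    apply integral_mono_of_nonneg
    · exact ae_of_all _ (fun y => indicator_nonneg (fun y _ => hG0 _) y)
    · exact ((integrable_indicator_iff measurableSet_closedBall).2 hGi).comp_add_right _
    · apply ae_of_all
      intro y
      by_cases hy : y ∈ closedBall z h
      · have : y + s • v ∈ closedBall z (2 * h) := by
          rw [mem_closedBall, dist_eq_norm] at hy ⊢
          have h1 : ‖s • v‖ ≤ h := by
            rw [norm_smul, hv, mul_one, Real.norm_eq_abs, abs_of_pos hs.1]; exact hs.2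
          rw [show y + s • v - z = (y - z) + s • v by abel]
          linarith [norm_add_le (y - z) (s • v)]
        simp only [indicator_of_mem hy, indicator_of_mem this, le_refl]
      · simp only [indicator_of_notMem hy]
        exact indicator_nonneg (fun y _ => hG0 _) _
  have htot : ∫ y in closedBall z h, ∫ s in Ioc (0 : ℝ) h, G (y + s • v) ≤
      h * ∫ y in closedBall z (2 * h), G y := by
    rw [hswap]
    calc _ ≤ ∫ _s in Ioc (0 : ℝ) h, ∫ y in closedBall z (2 * h), G y :=
          setIntegral_mono_on hint.integral_prod_right (integrableOn_const (by simp))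
            measurableSet_Ioc hinner
      _ = _ := by simp [hh.le]
  have hpos : volume (closedBall z h) ≠ 0 := (measure_closedBall_pos volume z hh).ne'
  obtain ⟨y, ⟨hy, hle⟩, hPy⟩ := Measure.exists_mem_of_measure_ne_zero_of_ae
    (measure_le_setAverage_pos hpos (hfin h) hint.integral_prod_left).ne' (ae_restrict_of_ae hP)
  refine ⟨y, hy, hPy, ?_⟩
  rw [intervalIntegral.integral_of_le hh.le]
  refine le_trans hle ?_
  rw [setAverage_eq, setAverage_eq, smul_eq_mul, smul_eq_mul]
  have hv1 : volume.real (closedBall z (2 * h)) = 4 * volume.real (closedBall z h) := by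
    rw [Measure.addHaar_real_closedBall volume z (by positivity),
      Measure.addHaar_real_closedBall volume z hh.le]
    simp
    ring
  have hv0 : 0 < volume.real (closedBall z h) := ENNReal.toReal_pos hpos (hfin h)
  rw [hv1]
  calc _ ≤ (volume.real (closedBall z h))⁻¹ * (h * ∫ y in closedBall z (2 * h), G y) :=
        mul_le_mul_of_nonneg_left htot (by positivity)
    _ = _ := by field_simp

lemma leb' (U b : E → ℝ) (hb : Measurable b) (C : ℝ) (hC : ∀ y, |b y| ≤ C) (z : E) (hz : 0 ≤ b z)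
    (hline : ∀ v : E, ‖v‖ = 1 → ∀ᵐ y, ∀ h : ℝ, 0 ≤ h →
      U (y + h • v) - U y ≤ ∫ s in (0 : ℝ)..h, b (y + s • v))
    (hd : DifferentiableAt ℝ U z)
    (hleb : Tendsto (fun r => ⨍ y in closedBall z r, ‖b y - b z‖) (𝓝[>] 0) (𝓝 0)) :
    ‖fderiv ℝ U z‖ ≤ b z := by
  set L := fderiv ℝ U z with hL
  have key : ∀ v : E, ‖v‖ = 1 → L v ≤ b z := by
    intro v hv
    apply le_of_forall_pos_le_add
    intro η hη
    have h1 := Asymptotics.isLittleO_iff.1 hd.hasFDerivAt.isLittleO (show 0 < η / 7 by positivity)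
    obtain ⟨ρ, hρ, h1⟩ := Metric.eventually_nhds_iff_ball.1 h1
    have h2 := hleb.eventually (ge_mem_nhds (show (0 : ℝ) < η / 7 by positivity))
    obtain ⟨r, ⟨h2, h3⟩, h4⟩ := ((h2.and (nhdsWithin_le_nhds (Iio_mem_nhds hρ))).and
      self_mem_nhdsWithin).exists
    have h3' : r < ρ := h3
    have h4' : 0 < r := h4
    set h := r / 2 with hh
    have hh0 : 0 < h := by positivity
    have hr : r = 2 * h := by rw [hh]; ring
    rw [hr] at h2 h3'
    have hGC : ∀ y, |‖b y - b z‖| ≤ 2 * C := by
      intro y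
      rw [abs_norm, Real.norm_eq_abs]
      linarith [abs_sub (b y) (b z), hC y, hC z]
    have hGm : Measurable (fun y => ‖b y - b z‖) := (hb.sub_const _).norm
    obtain ⟨y, hy, hPy, hle⟩ := good_line (fun y => ‖b y - b z‖) hGm (2 * C)
      (fun y => norm_nonneg _) hGC z v hv h hh0 _ (hline v hv)
    rw [mem_closedBall, dist_eq_norm] at hy
    have h5 : ∫ s in (0 : ℝ)..h, b (y + s • v) ≤
        ∫ s in (0 : ℝ)..h, (b z + ‖b (y + s • v) - b z‖) := by
      apply intervalIntegral.integral_mono_on hh0.le (line_integrable b hb C hC y v h)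
        (intervalIntegrable_const.add (line_integrable _ hGm (2 * C) hGC y v h))
      intro s _
      have := le_abs_self (b (y + s • v) - b z)
      rw [Real.norm_eq_abs]
      linarith
    rw [intervalIntegral.integral_add intervalIntegrable_const
      (line_integrable _ hGm (2 * C) hGC y v h), intervalIntegral.integral_const, sub_zero,
      smul_eq_mul] at h5
    have h6 := hPy h hh0.le
    have n1 : ‖y + h • v - z‖ ≤ 2 * h := by
      have h1 : ‖h • v‖ = h := by
        rw [norm_smul, hv, mul_one, Real.norm_eq_abs, abs_of_pos hh0]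
      rw [show y + h • v - z = (y - z) + h • v by abel]
      linarith [norm_add_le (y - z) (h • v)]
    have a1 := h1 (y + h • v) (by rw [mem_ball, dist_eq_norm]; linarith)
    have a2 := h1 y (by rw [mem_ball, dist_eq_norm]; linarith)
    rw [Real.norm_eq_abs, abs_le] at a1 a2
    have e : L (y + h • v - z) = L (y - z) + h * L v := by
      rw [show y + h • v - z = (y - z) + h • v by abel, map_add, map_smul, smul_eq_mul]
    rw [← hL] at a1 a2
    rw [e] at a1
    have b1 := mul_le_mul_of_nonneg_left n1 (show 0 ≤ η / 7 by positivity)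
    have b2 := mul_le_mul_of_nonneg_left hy (show 0 ≤ η / 7 by positivity)
    have b3 := mul_le_mul_of_nonneg_left h2 (show 0 ≤ 4 * h by positivity)
    have : h * L v ≤ h * (b z + η) := by nlinarith [a1.1, a2.2]
    exact le_of_mul_le_mul_left this hh0
  apply ContinuousLinearMap.opNorm_le_of_unit_norm hz
  intro v hv
  rw [Real.norm_eq_abs, abs_le]
  have := key (-v) (by rwa [norm_neg])
  rw [map_neg] at this
  exact ⟨by linarith, key v hv⟩

lemma lipW {U : E → ℝ} {L : ℝ} (hL : 0 ≤ L) (hU : ∀ y y', |U y' - U y| ≤ L * ‖y' - y‖) :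
    LipschitzWith L.toNNReal U :=
  LipschitzWith.of_dist_le_mul (fun x y => by
    rw [Real.dist_eq, dist_eq_norm, Real.coe_toNNReal _ hL]; exact hU y x)

/-- a bound along almost all lines gives a bound for the derivative almost everywhere -/
lemma ae_fderiv_le (U b : E → ℝ) (K : NNReal) (hU : LipschitzWith K U) (hb : Measurable b) (C : ℝ)
    (hC : ∀ y, |b y| ≤ C) (hb0 : ∀ y, 0 ≤ b y)
    (hline : ∀ v : E, ‖v‖ = 1 → ∀ᵐ y, ∀ h : ℝ, 0 ≤ h →
      U (y + h • v) - U y ≤ ∫ s in (0 : ℝ)..h, b (y + s • v)) :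
    ∀ᵐ z, ‖fderiv ℝ U z‖ ≤ b z := by
  have hloc : LocallyIntegrable b volume := by
    rw [locallyIntegrable_iff]
    intro K hK
    exact Measure.integrableOn_of_bounded (M := C) hK.measure_lt_top.ne
      hb.aestronglyMeasurable (ae_of_all _ (fun y => hC y))
  filter_upwards [hU.ae_differentiableAt,
    IsUnifLocDoublingMeasure.ae_tendsto_average_norm_sub volume hloc 1] with z dU hl
  have hleb : Tendsto (fun r => ⨍ y in closedBall z r, ‖b y - b z‖) (𝓝[>] 0) (𝓝 0) :=
    hl (fun _ => z) id tendsto_id (by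
      filter_upwards [self_mem_nhdsWithin] with r hr
      exact mem_closedBall_self (by simpa using le_of_lt hr))
  exact leb' U b hb C hC z (hb0 z) hline dU hleb

lemma ae_line (P : E → Prop) (hP : ∀ᵐ z, P z) (v : E) : ∀ᵐ y, ∀ᵐ s : ℝ, P (y + s • v) := by
  obtain ⟨N, hN1, hN2, hN3⟩ := exists_measurable_superset_of_null (ae_iff.1 hP)
  have hm : MeasurableSet {p : ℝ × E | p.2 + p.1 • v ∉ N} :=
    (hN2.preimage (show Measurable (fun p : ℝ × E => p.2 + p.1 • v) by fun_prop)).compl
  have h1 : ∀ᵐ s : ℝ, ∀ᵐ y : E, y + s • v ∉ N := by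
    apply ae_of_all
    intro s
    have h2 : ∀ᵐ y : E, y ∉ N := measure_eq_zero_iff_ae_notMem.1 hN3
    exact (measurePreserving_add_right volume (s • v)).quasiMeasurePreserving.ae h2
  have h3 := (Measure.ae_ae_comm (p := fun (s : ℝ) (y : E) => y + s • v ∉ N) hm).1 h1
  filter_upwards [h3] with y hy
  filter_upwards [hy] with s hs
  by_contra hc
  exact hs (hN1 hc)

lemma image_le (w H : ℝ → ℝ) (K : NNReal) (hw : LipschitzWith K w) (hH : Measurable H)
    (Z : Set ℝ) (T : Set ℝ) (hT : MeasurableSet T)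
    (h : ∀ᵐ s, s ∈ Z → DifferentiableAt ℝ w s ∧ |deriv w s| ≤ H s) :
    volume (w '' (Z ∩ T)) ≤ ∫⁻ s in T, ENNReal.ofReal (H s) := by
  let Gd : Set ℝ := T ∩ ({s | DifferentiableAt ℝ w s} ∩ {s | |deriv w s| ≤ H s})
  let N : Set ℝ := {s | ¬(s ∈ Z → DifferentiableAt ℝ w s ∧ |deriv w s| ≤ H s)}
  have hGm : MeasurableSet Gd :=
    hT.inter ((measurableSet_of_differentiableAt ℝ w).inter
      (measurableSet_le (measurable_deriv w).abs hH))
  have hN : volume (w '' N) = 0 := by
    have := hw.hausdorffMeasure_image_le (d := 1) zero_le_one N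
    rw [hausdorffMeasure_real, show volume N = 0 from h, mul_zero] at this
    exact le_zero_iff.1 this
  have hG : volume (w '' Gd) ≤ ∫⁻ s in Gd, ENNReal.ofReal |deriv w s| := by
    simpa only [ContinuousLinearMap.det_toSpanSingleton] using
      addHaar_image_le_lintegral_abs_det_fderiv volume hGm
        (fun x hx => (hx.2.1.hasDerivAt.hasDerivWithinAt (s := Gd)).hasFDerivWithinAt)
  have hsub : w '' (Z ∩ T) ⊆ w '' Gd ∪ w '' N := by
    rintro _ ⟨s, ⟨hs1, hs2⟩, rfl⟩
    by_cases hs : s ∈ N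
    · exact Or.inr ⟨s, hs, rfl⟩
    · have := (not_not.1 hs) hs1
      exact Or.inl ⟨s, ⟨hs2, this.1, this.2⟩, rfl⟩
  calc _ ≤ volume (w '' Gd) + volume (w '' N) := (measure_mono hsub).trans (measure_union_le _ _)
    _ ≤ ∫⁻ s in Gd, ENNReal.ofReal |deriv w s| := by rw [hN, add_zero]; exact hG
    _ ≤ ∫⁻ s in Gd, ENNReal.ofReal (H s) :=
        setLIntegral_mono' hGm (fun s hs => ENNReal.ofReal_le_ofReal hs.2.2)
    _ ≤ _ := lintegral_mono_set inter_subset_left

/-- one-dimensional area inequality along almost every segment -/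
lemma seg_le (U G : E → ℝ) (K : NNReal) (hU : LipschitzWith K U) (hG : Measurable G) (C : ℝ)
    (hC : ∀ y, |G y| ≤ C) (hG0 : ∀ y, 0 ≤ G y) (Z : Set E)
    (hZ : ∀ᵐ z, z ∈ Z → ‖fderiv ℝ U z‖ ≤ G z) (v : E) (hv : ‖v‖ = 1) :
    ∀ᵐ y, ∀ h : ℝ, 0 ≤ h → volume (U '' (Z ∩ segment ℝ y (y + h • v))) ≤
      ENNReal.ofReal (∫ s in (0 : ℝ)..h, G (y + s • v)) := by
  filter_upwards [ae_line _ (hU.ae_differentiableAt.and hZ) v] with y hy h hh
  have hlin : LipschitzWith 1 (fun s : ℝ => y + s • v) := by
    apply LipschitzWith.of_dist_le_mul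
    intro s t
    rw [dist_eq_norm, show y + s • v - (y + t • v) = (s - t) • v by rw [sub_smul]; abel,
      norm_smul, hv, Real.dist_eq]
    simp
  have hm : Measurable (fun s : ℝ => G (y + s • v)) := hG.comp (by fun_prop)
  have key := image_le (fun s : ℝ => U (y + s • v)) (fun s => G (y + s • v)) _ (hU.comp hlin) hm
    {s | y + s • v ∈ Z} (Icc 0 h) measurableSet_Icc (by
      filter_upwards [hy] with s hs hsZ
      have h1 : HasDerivAt (fun s : ℝ => y + s • v) v s := by
        simpa using ((hasDerivAt_id s).smul_const v).const_add y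
      have hd : HasDerivAt (fun s : ℝ => U (y + s • v)) (fderiv ℝ U (y + s • v) v) s :=
        hs.1.hasFDerivAt.comp_hasDerivAt s h1
      refine ⟨hd.differentiableAt, ?_⟩
      rw [hd.deriv]
      refine ((fderiv ℝ U (y + s • v)).le_opNorm v).trans ?_
      rw [hv, mul_one]
      exact hs.2 hsZ)
  have hsub : U '' (Z ∩ segment ℝ y (y + h • v)) ⊆
      (fun s : ℝ => U (y + s • v)) '' ({s | y + s • v ∈ Z} ∩ Icc 0 h) := by
    rintro _ ⟨z, ⟨hz1, hz2⟩, rfl⟩
    rw [segment_eq_image'] at hz2
    obtain ⟨θ, hθ, rfl⟩ := hz2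
    have e : y + θ • (y + h • v - y) = y + (θ * h) • v := by
      rw [add_sub_cancel_left, smul_smul]
    simp only [e] at hz1 ⊢
    exact ⟨θ * h, ⟨hz1, mul_nonneg hθ.1 hh, mul_le_of_le_one_left hh hθ.2⟩, rfl⟩
  refine (measure_mono hsub).trans (key.trans (le_of_eq ?_))
  rw [intervalIntegral.integral_of_le hh, ← integral_Icc_eq_integral_Ioc,
    ofReal_integral_eq_lintegral_ofReal]
  · exact (intervalIntegrable_iff_integrableOn_Icc_of_le hh).1 (line_integrable G hG C hC y v h)
  · exact ae_of_all _ (fun s => hG0 _)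

/-- a Lipschitz function is controlled along almost every segment by its derivative -/
lemma line_le (U G : E → ℝ) (K : NNReal) (hU : LipschitzWith K U) (hG : Measurable G) (C : ℝ)
    (hC : ∀ y, |G y| ≤ C) (hG0 : ∀ y, 0 ≤ G y) (hZ : ∀ᵐ z, ‖fderiv ℝ U z‖ ≤ G z)
    (v : E) (hv : ‖v‖ = 1) :
    ∀ᵐ y, ∀ h : ℝ, 0 ≤ h → U (y + h • v) - U y ≤ ∫ s in (0 : ℝ)..h, G (y + s • v) := by
  filter_upwards [seg_le U G K hU hG C hC hG0 univ (hZ.mono (fun z hz _ => hz)) v hv]
    with y hy h hh
  have h1 := hy h hh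
  rw [univ_inter] at h1
  have h2 : Icc (U y) (U (y + h • v)) ⊆ U '' segment ℝ y (y + h • v) :=
    (convex_segment y (y + h • v)).isPreconnected.intermediate_value (left_mem_segment ℝ _ _)
      (right_mem_segment ℝ _ _) hU.continuous.continuousOn
  have h3 := (measure_mono (μ := volume) h2).trans h1
  rw [Real.volume_Icc] at h3
  exact (ENNReal.ofReal_le_ofReal_iff
    (intervalIntegral.integral_nonneg hh (fun s _ => hG0 _))).1 h3

lemma lip_of_ae (U : E → ℝ) (K : NNReal) (hU : LipschitzWith K U) (L : ℝ) (hL : 0 ≤ L)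
    (h : ∀ᵐ z, ‖fderiv ℝ U z‖ ≤ L) (y y' : E) : |U y' - U y| ≤ L * ‖y' - y‖ := by
  have key : ∀ y y' : E, U y' - U y ≤ L * ‖y' - y‖ := by
    intro y y'
    by_cases hy : y' = y
    · simp [hy]
    have hn : 0 < ‖y' - y‖ := norm_pos_iff.2 (sub_ne_zero.2 hy)
    set v : E := ‖y' - y‖⁻¹ • (y' - y) with hv
    have hv1 : ‖v‖ = 1 := by
      rw [hv, norm_smul, norm_inv, norm_norm, inv_mul_cancel₀ hn.ne']
    have h1 := line_le U (fun _ => L) K hU measurable_const |L| (fun _ => le_rfl) (fun _ => hL) h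
      v hv1
    have h2 : ∀ᵐ x, U (x + ‖y' - y‖ • v) - U x ≤ L * ‖y' - y‖ := by
      filter_upwards [h1] with x hx
      have := hx _ hn.le
      rwa [intervalIntegral.integral_const, sub_zero, smul_eq_mul, mul_comm] at this
    have h3 := (Measure.dense_of_ae h2).closure_eq
    have hc : Continuous (fun x => U (x + ‖y' - y‖ • v) - U x) :=
      (hU.continuous.comp (continuous_id.add continuous_const)).sub hU.continuous
    rw [(isClosed_le hc continuous_const).closure_eq] at h3
    have h4 : y ∈ {x | U (x + ‖y' - y‖ • v) - U x ≤ L * ‖y' - y‖} := by rw [h3]; trivial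
    have e : y + ‖y' - y‖ • v = y' := by
      rw [hv, smul_smul, mul_inv_cancel₀ hn.ne', one_smul, add_sub_cancel]
    simpa only [mem_ofPred_eq, e] using h4
  rw [abs_le]
  have := key y' y
  rw [norm_sub_rev] at this
  exact ⟨by linarith, key y y'⟩

end Pool.Agent.MP_fab550_an.H99
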