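import Mathlib
import Pool.Agent.MP_fab550_an.H99.Line

set_option autoImplicit false

namespace Pool.Agent.MP_fab550_an.H99

open Pool.Agent.MP_fab550_an.H76 MeasureTheory Metric Filter Topology

/-- cost of a chain for a two-point cost -/
noncomputable def cst (c : E → E → ℝ) (x : ℕ → E) (N : ℕ) : ℝ :=
  ∑ i ∈ Finset.range N, c (x i) (x (i + 1))

lemma cst_succ (c : E → E → ℝ) (x : ℕ → E) (N : ℕ) :
    cst c x (N + 1) = cst c x N + c (x N) (x (N + 1)) := Finset.sum_range_succ _ _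

lemma potential (c : E → E → ℝ) (R : E → E → Prop) (l : E →L[ℝ] ℝ) (M : ℝ)
    (hp : ∀ (k : Fin 2 → ℤ) (x y : E), c (x + lat k) (y + lat k) ≤ c x y)
    (hR : ∀ (k : Fin 2 → ℤ) (x y : E), R x y → R (x + lat k) (y + lat k))
    (hcon : ∀ (x : ℕ → E) (N : ℕ), (∀ i < N, R (x i) (x (i + 1))) →
      l (x N) - l (x 0) - cst c x N ≤ M) :
    ∃ u : E → ℝ, QP l u ∧ ∀ y y', R y y' → u y' ≤ u y + c y y' := by
  let V : E → Set ℝ := fun y => {t | ∃ (x : ℕ → E) (N : ℕ), x 0 = y ∧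
    (∀ i < N, R (x i) (x (i + 1))) ∧ t = l (x N) - cst c x N}
  have hne : ∀ y, (V y).Nonempty := fun y =>
    ⟨_, fun _ => y, 0, rfl, fun i hi => absurd hi (Nat.not_lt_zero i), rfl⟩
  have hbd : ∀ y, BddAbove (V y) := by
    intro y
    refine ⟨M + l y, ?_⟩
    rintro t ⟨x, N, rfl, hx, rfl⟩
    have := hcon x N hx
    linarith
  let u : E → ℝ := fun y => sSup (V y)
  have hstep : ∀ y y' : E, R y y' → u y' ≤ u y + c y y' := by
    intro y y' hy
    apply csSup_le (hne y')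
    rintro t ⟨x, N, rfl, hx, rfl⟩
    let x' : ℕ → E := fun i => Nat.casesOn i y x
    have hmem : l (x' (N + 1)) - cst c x' (N + 1) ∈ V y := by
      refine ⟨x', N + 1, rfl, ?_, rfl⟩
      intro i hi
      cases i with
      | zero => exact hy
      | succ i => exact hx i (by omega)
    have h1 := le_csSup (hbd y) hmem
    have h2 : cst c x' (N + 1) = cst c x N + c y (x 0) := by
      unfold cst
      rw [Finset.sum_range_succ']
      rfl
    have h3 : x' (N + 1) = x N := rfl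
    rw [h2, h3] at h1
    change _ ≤ sSup (V y) + _
    linarith
  have htr : ∀ (k : Fin 2 → ℤ) (y : E), u y + l (lat k) ≤ u (y + lat k) := by
    intro k y
    have : u y ≤ u (y + lat k) - l (lat k) := by
      apply csSup_le (hne y)
      rintro t ⟨x, N, rfl, hx, rfl⟩
      have hmem : l (x N + lat k) - cst c (fun i => x i + lat k) N ∈ V (x 0 + lat k) :=
        ⟨fun i => x i + lat k, N, rfl, fun i hi => hR k _ _ (hx i hi), rfl⟩
      have h1 := le_csSup (hbd _) hmem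
      have h2 : cst c (fun i => x i + lat k) N ≤ cst c x N :=
        Finset.sum_le_sum (fun i _ => hp k _ _)
      rw [map_add] at h1
      change _ ≤ sSup (V (x 0 + lat k)) - _
      linarith
    linarith
  refine ⟨u, fun k y => ?_, hstep⟩
  have h1 := htr k y
  have h2 := htr (-k) (y + lat k)
  rw [lat_neg, map_neg, add_neg_cancel_right] at h2
  linarith

lemma glob (u : E → ℝ) (L h : ℝ) (hh : 0 < h)
    (hu : ∀ y y', ‖y' - y‖ ≤ h → |u y' - u y| ≤ L * ‖y' - y‖) (y y' : E) :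
    |u y' - u y| ≤ L * ‖y' - y‖ := by
  have key : ∀ n : ℕ, ∀ y y' : E, ‖y' - y‖ ≤ 2 ^ n * h → |u y' - u y| ≤ L * ‖y' - y‖ := by
    intro n
    induction n with
    | zero => intro y y' hy; exact hu y y' (by simpa using hy)
    | succ n ih =>
      intro y y' hy
      set m : E := y + (1 / 2 : ℝ) • (y' - y) with hm
      have e1 : ‖m - y‖ = ‖y' - y‖ / 2 := by
        rw [hm, add_sub_cancel_left, norm_smul]; norm_num; ring
      have e2 : ‖y' - m‖ = ‖y' - y‖ / 2 := by
        rw [show y' - m = (1 / 2 : ℝ) • (y' - y) by rw [hm]; module, norm_smul]; norm_num; ring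
      rw [pow_succ] at hy
      have a1 := ih y m (by rw [e1]; linarith)
      have a2 := ih m y' (by rw [e2]; linarith)
      rw [e1] at a1
      rw [e2] at a2
      have := abs_sub_le (u y') (u m) (u y)
      linarith
  obtain ⟨n, hn⟩ := pow_unbounded_of_one_lt (‖y' - y‖ / h) (show (1 : ℝ) < 2 by norm_num)
  exact key n y y' (by rw [div_lt_iff₀ hh] at hn; exact hn.le)

lemma ev_lip (A : E → ℝ) (z : E) (hd : DifferentiableAt ℝ A z) (β η : ℝ)
    (hβ : ‖fderiv ℝ A z‖ ≤ β) (hη : 0 < η) :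
    ∀ᶠ y in 𝓝 z, |A y - A z| ≤ (β + η) * ‖y - z‖ := by
  filter_upwards [Asymptotics.isLittleO_iff.1 hd.hasFDerivAt.isLittleO hη] with y hy
  have h1 : |fderiv ℝ A z (y - z)| ≤ β * ‖y - z‖ :=
    ((fderiv ℝ A z).le_opNorm _).trans (mul_le_mul_of_nonneg_right hβ (norm_nonneg _))
  rw [Real.norm_eq_abs] at hy
  have := abs_add_le (A y - A z - fderiv ℝ A z (y - z)) (fderiv ℝ A z (y - z))
  rw [sub_add_cancel] at this
  linarith

/-- Lipschitz subsolutions of slope `l` -/
def Sub (b : E → ℝ) (l : E →L[ℝ] ℝ) : Prop :=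
  ∃ u : E → ℝ, (∃ K, LipschitzWith K u) ∧ QP l u ∧ ∀ᵐ z, ‖fderiv ℝ u z‖ ≤ b z

/-- the data extracted from two vertices of the parallelogram -/
structure Dat (m0 L : ℝ) (b A B : E → ℝ) : Prop where
  hm : 0 < m0
  hmL : m0 ≤ L
  lo : ∀ y, m0 ≤ b y
  lA : ∀ y y', |A y' - A y| ≤ L * ‖y' - y‖
  lB : ∀ y y', |B y' - B y| ≤ L * ‖y' - y‖
  qA : QP (lP + lQ) A
  qB : QP (lP - lQ) B
  bA : ∀ᵐ z, ‖fderiv ℝ A z‖ ≤ b z
  bB : ∀ᵐ z, ‖fderiv ℝ B z‖ ≤ b z
  no : ∀ lam : ℝ, 1 < lam → ¬Sub b (lam • lP)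

/-- the metric cost -/
noncomputable def c1 (m0 : ℝ) (A B : E → ℝ) (x y : E) : ℝ :=
  max (max |A y - A x| |B y - B x|) (m0 * ‖y - x‖)

lemma chain1 {m0 L : ℝ} {b A B : E → ℝ} (H : Dat m0 L b A B) (lam : ℝ) (hlam : 1 < lam)
    (h : ℝ) (hh : 0 < h) (M : ℝ) :
    ∃ (x : ℕ → E) (N : ℕ), (∀ i < N, ‖x (i + 1) - x i‖ ≤ h) ∧
      M < lam * (lP (x N) - lP (x 0)) - cst (c1 m0 A B) x N := by
  by_contra hcon
  push Not at hcon
  have hL : 0 ≤ L := H.hm.le.trans H.hmL
  obtain ⟨u, hq, hu⟩ := potential (c1 m0 A B) (fun x y => ‖y - x‖ ≤ h) (lam • lP) M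
    (fun k x y => by
      unfold c1
      rw [H.qA k x, H.qA k y, H.qB k x, H.qB k y]
      simp only [add_sub_add_right_eq_sub, le_refl])
    (fun k x y hxy => by simpa only [add_sub_add_right_eq_sub] using hxy)
    (fun x N hx => by
      have := hcon x N hx
      simp only [smul_apply, smul_eq_mul]
      linarith)
  have hsym : ∀ x y, c1 m0 A B y x = c1 m0 A B x y := by
    intro x y
    unfold c1
    rw [abs_sub_comm (A x), abs_sub_comm (B x), norm_sub_rev]
  have habs : ∀ y y', ‖y' - y‖ ≤ h → |u y' - u y| ≤ c1 m0 A B y y' := by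
    intro y y' hy
    have a1 := hu y y' hy
    have a2 := hu y' y (by rwa [norm_sub_rev])
    rw [hsym] at a2
    rw [abs_le]
    constructor <;> linarith
  have hlip : ∀ y y', |u y' - u y| ≤ L * ‖y' - y‖ := by
    apply glob u L h hh
    intro y y' hy
    exact (habs y y' hy).trans (max_le (max_le (H.lA y y') (H.lB y y'))
      (mul_le_mul_of_nonneg_right H.hmL (norm_nonneg _)))
  refine H.no lam hlam ⟨u, ⟨_, lipW hL hlip⟩, hq, ?_⟩
  filter_upwards [(lipW hL H.lA).ae_differentiableAt, (lipW hL H.lB).ae_differentiableAt,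
    H.bA, H.bB] with z dA dB bA bB
  apply le_of_forall_pos_le_add
  intro η hη
  have hb0 : 0 ≤ b z := H.hm.le.trans (H.lo z)
  apply norm_fderiv_le_of_lip' ℝ (by linarith)
  filter_upwards [ev_lip A z dA _ η bA hη, ev_lip B z dB _ η bB hη, closedBall_mem_nhds z hh]
    with y h1 h2 h3
  rw [mem_closedBall, dist_eq_norm] at h3
  refine (habs z y h3).trans (max_le (max_le h1 h2) ?_)
  exact mul_le_mul_of_nonneg_right (by linarith [H.lo z]) (norm_nonneg _)

lemma half (U V : E → ℝ) (L : ℝ) (h1 : ∀ y y', |U y' - U y| ≤ L * ‖y' - y‖)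
    (h2 : ∀ y y', |V y' - V y| ≤ L * ‖y' - y‖) :
    (∀ y y', |(U y' + V y') / 2 - (U y + V y) / 2| ≤ L * ‖y' - y‖) ∧
      (∀ y y', |(U y' - V y') / 2 - (U y - V y) / 2| ≤ L * ‖y' - y‖) := by
  constructor <;> intro y y' <;> have a := abs_le.1 (h1 y y') <;>
    have b := abs_le.1 (h2 y y') <;> rw [abs_le] <;> constructor <;>
    linarith [a.1, a.2, b.1, b.2]

/-- long chains along which `f` grows and `g` is almost equal to a prescribed level -/
lemma curve {m0 L : ℝ} {b A B : E → ℝ} (H : Dat m0 L b A B) (t T τ : ℝ) (hT : 0 < T)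
    (hτ : 0 < τ) :
    ∃ (x : ℕ → E) (n : ℕ), (∀ i < n, ‖x (i + 1) - x i‖ ≤ τ) ∧
      (A (x 0) + B (x 0)) / 2 ≤ -T ∧ T ≤ (A (x n) + B (x n)) / 2 ∧
      (∀ i ≤ n, |(A (x i) - B (x i)) / 2 - t| ≤ 2 * τ) ∧
      ∀ i j, i ≤ j → j ≤ n →
        m0 * ‖x j - x i‖ - τ ≤ (A (x j) + B (x j)) / 2 - (A (x i) + B (x i)) / 2 := by
  have hL : 0 < L := H.hm.trans_le H.hmL
  obtain ⟨R, hR⟩ := dense_levels τ hτ
  let f : E → ℝ := fun y => (A y + B y) / 2
  let g : E → ℝ := fun y => (A y - B y) / 2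
  have qf : QP lP f := qp_f H.qA H.qB
  have qg : QP lQ g := qp_g H.qA H.qB
  have lf : ∀ y y', |f y' - f y| ≤ L * ‖y' - y‖ := (half A B L H.lA H.lB).1
  set C0 := 2 * L + 2 * ‖lP‖ with hC0
  have bf : ∀ y, |f y - f 0 - lP y| ≤ C0 := qp_bound f lP qf L hL.le lf
  set T1 := 2 * T + 2 * R + 1 with hT1
  have hT1p : 0 < T1 := by positivity
  set θ := τ / (2 * (T1 + 1)) with hθ
  have hθp : 0 < θ := by positivity
  set h := min τ (1 / L) with hh
  have hhp : 0 < h := lt_min hτ (by positivity)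
  obtain ⟨x, N, hx, hM⟩ := chain1 H (1 + θ) (by linarith) h hhp
    ((1 + θ) * (2 * C0) + 2 * T1 * θ)
  let c := c1 m0 A B
  let F : ℕ → ℝ := fun i => f (x i) - f (x 0)
  let D : ℕ → ℝ := fun i => cst c x i - F i
  have hstep : ∀ i, |g (x (i + 1)) - g (x i)| ≤ D (i + 1) - D i := by
    intro i
    have a1 : |A (x (i + 1)) - A (x i)| ≤ c (x i) (x (i + 1)) :=
      (le_max_left _ _).trans (le_max_left _ _)
    have a2 : |B (x (i + 1)) - B (x i)| ≤ c (x i) (x (i + 1)) :=
      (le_max_right _ _).trans (le_max_left _ _)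
    simp only [D, F, f, g, cst_succ]
    rw [abs_le] at a1 a2 ⊢
    constructor <;> linarith [a1.2, a2.2]
  have hsum : ∀ i j, i ≤ j → |g (x j) - g (x i)| ≤ D j - D i ∧
      m0 * ‖x j - x i‖ ≤ cst c x j - cst c x i := by
    intro i j hij
    induction j, hij using Nat.le_induction with
    | base => simp
    | succ j _ ih =>
      have a1 := hstep j
      have a2 : m0 * ‖x (j + 1) - x j‖ ≤ c (x j) (x (j + 1)) := le_max_right _ _
      have a3 := abs_sub_le (g (x (j + 1))) (g (x j)) (g (x i))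
      have a4 := mul_le_mul_of_nonneg_left
        (norm_sub_le_norm_sub_add_norm_sub (x (j + 1)) (x j) (x i)) H.hm.le
      rw [cst_succ]
      constructor <;> linarith [ih.1, ih.2]
  have hmono : ∀ i j, i ≤ j → D i ≤ D j := fun i j hij => by
    linarith [(hsum i j hij).1, abs_nonneg (g (x j) - g (x i))]
  have hD0 : D 0 = 0 := by simp [D, F, cst]
  have hP : lP (x N) - lP (x 0) ≤ F N + 2 * C0 := by
    have a1 := abs_le.1 (bf (x N))
    have a2 := abs_le.1 (bf (x 0))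
    simp only [F]
    linarith [a1.1, a2.2]
  have hP2 := mul_le_mul_of_nonneg_left hP (show 0 ≤ 1 + θ by linarith)
  have hDN : D N + 2 * T1 * θ ≤ θ * F N := by
    simp only [D]
    nlinarith
  have hDN0 : 0 ≤ D N := by linarith [hmono 0 N (Nat.zero_le N)]
  have hFN : 2 * T1 ≤ F N := by
    have : θ * (2 * T1) ≤ θ * F N := by linarith
    exact le_of_mul_le_mul_left this hθp
  obtain ⟨i0, j0, hij, hjN, hF, hD⟩ := block F D N θ T1 hθp hT1p (by simp [F]) hD0
    (fun i j hij _ => hmono i j hij) (by nlinarith) (fun i hi => by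
      have a1 := (abs_le.1 (lf (x i) (x (i + 1)))).2
      have a2 : L * ‖x (i + 1) - x i‖ ≤ L * (1 / L) :=
        mul_le_mul_of_nonneg_left ((hx i hi).trans (min_le_right _ _)) hL.le
      rw [mul_one_div_cancel hL.ne'] at a2
      simp only [F]
      linarith) hFN
  have hDτ : D j0 - D i0 ≤ τ := by
    refine hD.trans (le_of_eq ?_)
    rw [hθ]; field_simp
  set j1 : ℤ := ⌊-T - R - f (x i0)⌋ with hj1
  have f1 := Int.floor_le (-T - R - f (x i0))
  have f2 := Int.lt_floor_add_one (-T - R - f (x i0))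
  rw [← hj1] at f1 f2
  obtain ⟨j, k, hj, hjk⟩ := hR (t - g (x i0) - √2 * j1)
  have hj' : |(j : ℝ)| ≤ R := by exact_mod_cast hj
  rw [abs_le] at hj'
  let κ : Fin 2 → ℤ := ![j1 + j, k]
  have eP : lP (lat κ) = j1 + j := by simp [lP_apply, lat_apply, κ]
  have eQ : lQ (lat κ) = √2 * (j1 + j) + k := by simp [lQ_apply, lat_apply, κ]
  have ef : ∀ y, (A (y + lat κ) + B (y + lat κ)) / 2 = f y + (j1 + j) := fun y => by
    rw [← eP]; exact qf κ y
  have eg : ∀ y, (A (y + lat κ) - B (y + lat κ)) / 2 = g y + (√2 * (j1 + j) + k) := fun y => by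
    rw [← eQ]; exact qg κ y
  refine ⟨fun i => x (i0 + i) + lat κ, j0 - i0, ?_, ?_, ?_, ?_, ?_⟩
  · intro i hi
    simp only [add_sub_add_right_eq_sub]
    exact (hx (i0 + i) (by omega)).trans (min_le_left _ _)
  · simp only [ef, add_zero]
    linarith [hj'.2]
  · simp only [ef, Nat.add_sub_cancel' hij]
    simp only [F] at hF
    linarith [hj'.1]
  · intro i hi
    simp only [eg]
    have a1 := (hsum i0 (i0 + i) (by omega)).1
    have a2 := hmono (i0 + i) j0 (by omega)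
    rw [abs_le] at a1 hjk ⊢
    constructor <;> linarith [a1.1, a1.2, hjk.1, hjk.2]
  · intro i i' hii hi'
    simp only [ef, add_sub_add_right_eq_sub]
    have a1 := (hsum (i0 + i) (i0 + i') (by omega)).2
    have a2 := hmono (i0 + i') j0 (by omega)
    have a3 := hmono i0 (i0 + i) (by omega)
    simp only [D, F] at a2 a3 hDτ
    linarith

end Pool.Agent.MP_fab550_an.H99
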