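import Mathlib
import Pool.Agent.MP_fab550_an.H99.Pot
import Pool.Agent.MP_1912d8_co.H41.Mir

set_option autoImplicit false

namespace Pool.Agent.MP_fab550_an.H99

open Pool.Agent.MP_fab550_an.H76 MeasureTheory Metric Filter Topology Set

/-- the polygon through the points of a chain -/
def Seg (x : ℕ → E) (n : ℕ) : Set E :=
  {z | z = x 0 ∨ ∃ i < n, z ∈ segment ℝ (x i) (x (i + 1))}

lemma joined (x : ℕ → E) (n : ℕ) : JoinedIn (Seg x n) (x 0) (x n) := by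
  induction n with
  | zero => exact JoinedIn.refl (Or.inl rfl)
  | succ n ih =>
    refine (ih.mono ?_).trans (JoinedIn.of_segment_subset ?_)
    · rintro z (hz | ⟨i, hi, hz⟩)
      · exact Or.inl hz
      · exact Or.inr ⟨i, by omega, hz⟩
    · intro z hz
      exact Or.inr ⟨n, by omega, hz⟩

lemma poly (x : ℕ → E) (n : ℕ) : ∃ γ : ℝ → E, Continuous γ ∧ γ 0 = x 0 ∧ γ 1 = x n ∧
    ∀ s, γ s ∈ Seg x n := by
  let p := (joined x n).somePath
  refine ⟨p.extend, p.continuous_extend, p.extend_zero, p.extend_one, fun s => ?_⟩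
  have : p.extend s ∈ range p := by rw [← p.extend_range]; exact mem_range_self s
  obtain ⟨t, ht⟩ := this
  rw [← ht]
  exact (joined x n).somePath_mem t

lemma seg_near {x y z : E} (hz : z ∈ segment ℝ x y) : ‖z - x‖ ≤ ‖y - x‖ := by
  rw [segment_eq_image'] at hz
  obtain ⟨θ, hθ, rfl⟩ := hz
  simp only [add_sub_cancel_left]
  rw [norm_smul, Real.norm_eq_abs, abs_of_nonneg hθ.1]
  exact mul_le_of_le_one_left (norm_nonneg _) hθ.2

lemma Seg_near {x : ℕ → E} {n : ℕ} {τ : ℝ} (hτ : 0 ≤ τ) (hx : ∀ i < n, ‖x (i + 1) - x i‖ ≤ τ)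
    {z : E} (hz : z ∈ Seg x n) : ∃ i ≤ n, ‖z - x i‖ ≤ τ := by
  rcases hz with rfl | ⟨i, hi, hz⟩
  · exact ⟨0, Nat.zero_le n, by simpa using hτ⟩
  · exact ⟨i, hi.le, (seg_near hz).trans (hx i hi)⟩

/-- approximate growth of `f` at all small scales -/
def Gr (m0 : ℝ) (f : E → ℝ) (η : ℝ) (z : E) : Prop :=
  ∀ ρ : ℝ, 0 < ρ → ρ ≤ 1 → ∃ w, ‖w - z‖ ≤ ρ + η ∧ m0 * ρ - η ≤ f w - f z

/-- points at which `f` grows with rate `m0` -/
def Zs (m0 : ℝ) (f : E → ℝ) : Set E := {z | ∀ η : ℝ, 0 < η → Gr m0 f η z}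

lemma eq_of_PQ {y z : E} (h1 : lP y = lP z) (h2 : lQ y = lQ z) : y = z := by
  rw [lP_apply, lP_apply] at h1
  rw [lQ_apply, lQ_apply, h1] at h2
  ext i
  fin_cases i
  · exact h1
  · exact add_left_cancel h2

lemma cross_aux {m0 L : ℝ} {b A B : E → ℝ} (H : Dat m0 L b A B) :
    ∃ C1 : ℝ, ∀ (β : ℝ → E), Continuous β → ∀ t : ℝ, lQ (β 0) + C1 ≤ t → t ≤ lQ (β 1) - C1 →
      ∀ η : ℝ, 0 < η → ∃ r ∈ Icc (0 : ℝ) 1, |(A (β r) - B (β r)) / 2 - t| ≤ η ∧
        Gr m0 (fun y => (A y + B y) / 2) η (β r) := by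
  have hL : 0 < L := H.hm.trans_le H.hmL
  let f : E → ℝ := fun y => (A y + B y) / 2
  let g : E → ℝ := fun y => (A y - B y) / 2
  have qf : QP lP f := qp_f H.qA H.qB
  have qg : QP lQ g := qp_g H.qA H.qB
  have lf : ∀ y y', |f y' - f y| ≤ L * ‖y' - y‖ := (half A B L H.lA H.lB).1
  have lg : ∀ y y', |g y' - g y| ≤ L * ‖y' - y‖ := (half A B L H.lA H.lB).2
  obtain ⟨Cf, bf⟩ : ∃ Cf : ℝ, ∀ y, |f y - lP y| ≤ Cf := ⟨2 * L + 2 * ‖lP‖ + |f 0|, fun y => by
    have a1 := abs_le.1 (qp_bound f lP qf L hL.le lf y)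
    rw [abs_le]
    constructor <;> linarith [a1.1, a1.2, le_abs_self (f 0), neg_abs_le (f 0)]⟩
  obtain ⟨Cg, bg⟩ : ∃ Cg : ℝ, ∀ y, |g y - lQ y| ≤ Cg := ⟨2 * L + 2 * ‖lQ‖ + |g 0|, fun y => by
    have a1 := abs_le.1 (qp_bound g lQ qg L hL.le lg y)
    rw [abs_le]
    constructor <;> linarith [a1.1, a1.2, le_abs_self (g 0), neg_abs_le (g 0)]⟩
  have hCf : 0 ≤ Cf := (abs_nonneg _).trans (bf 0)
  refine ⟨Cg + 1, fun β hβ t ht1 ht2 η hη => ?_⟩
  obtain ⟨Cβ, bβ⟩ := (isCompact_Icc (a := (0 : ℝ)) (b := 1)).exists_bound_of_continuousOn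
    (f := fun r => lP (β r)) (lP.continuous.comp hβ).continuousOn
  have hCβ : 0 ≤ Cβ := (norm_nonneg _).trans (bβ 0 ⟨le_rfl, zero_le_one⟩)
  set τ := min η 1 / (L + 2) with hτ
  have hη1 : 0 < min η 1 := lt_min hη one_pos
  have hτp : 0 < τ := by positivity
  have hτe : (L + 2) * τ = min η 1 := by rw [hτ]; field_simp
  have hτη : (L + 2) * τ ≤ η := hτe.le.trans (min_le_left _ _)
  have hτ1 : (L + 2) * τ ≤ 1 := hτe.le.trans (min_le_right _ _)
  have hLτ : 0 ≤ L * τ := by positivity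
  obtain ⟨x, n, hx, x0, xn, xg, xf⟩ := curve H t (Cβ + Cf + L + 1) τ (by positivity) hτp
  obtain ⟨α, hα, α0, α1, αs⟩ := poly x n
  have gα : ∀ s, |g (α s) - t| ≤ (L + 2) * τ := by
    intro s
    obtain ⟨i, hi, hz⟩ := Seg_near hτp.le hx (αs s)
    have a1 := abs_le.1 (xg i hi)
    have a2 := abs_le.1 ((lg (x i) (α s)).trans (mul_le_mul_of_nonneg_left hz hL.le))
    have a3 : g (x i) = (A (x i) - B (x i)) / 2 := rfl
    rw [abs_le]
    constructor <;> linarith [a1.1, a1.2, a2.1, a2.2]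
  obtain ⟨s, -, r, hr, e1, e2⟩ := Pool.Agent.MP_1912d8_co.H41.miranda
    (w1 := fun p : ℝ × ℝ => lP (β p.2) - lP (α p.1))
    (w2 := fun p : ℝ × ℝ => lQ (β p.2) - lQ (α p.1)) (by fun_prop) (by fun_prop)
    (x0 := 0) (x1 := 1) (y0 := 0) (y1 := 1) zero_le_one zero_le_one
    (fun r hr => by
      have a1 := abs_le.1 (bβ r hr)
      have a2 := abs_le.1 (bf (x 0))
      have a3 : f (x 0) = (A (x 0) + B (x 0)) / 2 := rfl
      simp only [α0]
      linarith [a1.1, a2.1])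
    (fun r hr => by
      have a1 := abs_le.1 (bβ r hr)
      have a2 := abs_le.1 (bf (x n))
      have a3 : f (x n) = (A (x n) + B (x n)) / 2 := rfl
      simp only [α1]
      linarith [a1.2, a2.2])
    (fun s _ => by
      have a1 := abs_le.1 (gα s)
      have a2 := abs_le.1 (bg (α s))
      simp only
      linarith [a1.1, a2.2])
    (fun s _ => by
      have a1 := abs_le.1 (gα s)
      have a2 := abs_le.1 (bg (α s))
      simp only
      linarith [a1.2, a2.1])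
  have e : β r = α s := eq_of_PQ (sub_eq_zero.1 e1) (sub_eq_zero.1 e2)
  refine ⟨r, hr, ?_, ?_⟩
  · rw [e]; exact (gα s).trans hτη
  · intro ρ hρ hρ1
    obtain ⟨i, hi, hz⟩ := Seg_near hτp.le hx (αs s)
    rw [← e] at hz
    have a1 := abs_le.1 ((lf (x i) (β r)).trans (mul_le_mul_of_nonneg_left hz hL.le))
    have hfar : ρ ≤ ‖x n - x i‖ := by
      have a2 := abs_le.1 (bβ r hr)
      have a3 := abs_le.1 (bf (β r))
      have a4 := (abs_le.1 (lf (x i) (x n))).2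
      have a5 : f (x n) = (A (x n) + B (x n)) / 2 := rfl
      have a6 : L * 1 ≤ L * ‖x n - x i‖ := by linarith [a1.1, a2.2, a3.2]
      exact hρ1.trans (le_of_mul_le_mul_left a6 hL)
    have hex : ∃ j, i ≤ j ∧ j ≤ n ∧ ρ ≤ ‖x j - x i‖ := ⟨n, hi, le_rfl, hfar⟩
    classical
    obtain ⟨hj1, hj2, hj3⟩ := Nat.find_spec hex
    have hmin := fun m (hm : m < Nat.find hex) => Nat.find_min hex hm
    set j := Nat.find hex with hj
    have hij : i < j := by
      rcases hj1.lt_or_eq with h | h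
      · exact h
      · rw [← h, sub_self, norm_zero] at hj3
        linarith
    obtain ⟨k, hk⟩ : ∃ k, j = k + 1 := ⟨j - 1, by omega⟩
    have hk1 : ‖x k - x i‖ < ρ := by
      by_contra hc
      exact hmin k (by omega) ⟨by omega, by omega, not_lt.1 hc⟩
    have hk2 := hx k (by omega)
    rw [← hk] at hk2
    refine ⟨x j, ?_, ?_⟩
    · have a2 := norm_sub_le_norm_sub_add_norm_sub (x j) (x k) (x i)
      have a3 := norm_sub_le_norm_sub_add_norm_sub (x j) (x i) (β r)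
      rw [norm_sub_rev (x i)] at a3
      linarith
    · have a2 := xf i j hj1 hj2
      have a3 := mul_le_mul_of_nonneg_left hj3 H.hm.le
      have a4 : f (x i) = (A (x i) + B (x i)) / 2 := rfl
      have a5 : f (β r) = (A (β r) + B (β r)) / 2 := rfl
      simp only
      linarith [a1.2]

lemma cross {m0 L : ℝ} {b A B : E → ℝ} (H : Dat m0 L b A B) :
    ∃ C1 : ℝ, ∀ (β : ℝ → E), Continuous β → ∀ t : ℝ, lQ (β 0) + C1 ≤ t → t ≤ lQ (β 1) - C1 →
      ∃ r : ℝ, (A (β r) - B (β r)) / 2 = t ∧ β r ∈ Zs m0 (fun y => (A y + B y) / 2) := by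
  have hL : 0 < L := H.hm.trans_le H.hmL
  obtain ⟨C1, hC⟩ := cross_aux H
  refine ⟨C1, fun β hβ t h1 h2 => ?_⟩
  have lf := (half A B L H.lA H.lB).1
  have lg := (half A B L H.lA H.lB).2
  choose r hr hg hG using fun n : ℕ => hC β hβ t h1 h2 (1 / ((n : ℝ) + 1)) (by positivity)
  obtain ⟨r', -, φ, hφ, hlim⟩ := isCompact_Icc.tendsto_subseq hr
  have hz : Tendsto (fun n => ‖β (r (φ n)) - β r'‖) atTop (𝓝 0) :=
    tendsto_iff_norm_sub_tendsto_zero.1 ((hβ.tendsto r').comp hlim)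
  have hη : Tendsto (fun n => 1 / ((φ n : ℝ) + 1)) atTop (𝓝 0) :=
    tendsto_one_div_add_atTop_nhds_zero_nat.comp hφ.tendsto_atTop
  have hev : ∀ δ : ℝ, 0 < δ → ∃ n, ‖β (r n) - β r'‖ ≤ δ ∧ 1 / ((n : ℝ) + 1) ≤ δ := by
    intro δ hδ
    obtain ⟨n, hn⟩ := ((hz.eventually (ge_mem_nhds hδ)).and (hη.eventually (ge_mem_nhds hδ))).exists
    exact ⟨φ n, hn⟩
  refine ⟨r', ?_, ?_⟩
  · apply sub_eq_zero.1
    apply abs_nonpos_iff.1
    apply le_of_forall_pos_le_add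
    intro η hη
    obtain ⟨n, a1, a2⟩ := hev (η / (L + 1)) (by positivity)
    have a3 := abs_le.1 ((hg n).trans a2)
    have a4 := abs_le.1 ((lg (β r') (β (r n))).trans (mul_le_mul_of_nonneg_left a1 hL.le))
    have a5 : L * (η / (L + 1)) + η / (L + 1) = η := by field_simp
    rw [abs_le]
    constructor <;> linarith [a3.1, a3.2, a4.1, a4.2]
  · intro η hη ρ hρ hρ1
    obtain ⟨n, a1, a2⟩ := hev (η / (L + 2)) (by positivity)
    obtain ⟨w, b1, b2⟩ := hG n ρ hρ hρ1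
    have a4 := abs_le.1 ((lf (β r') (β (r n))).trans (mul_le_mul_of_nonneg_left a1 hL.le))
    have a5 : L * (η / (L + 2)) + 2 * (η / (L + 2)) = η := by field_simp
    have a6 : 0 ≤ η / (L + 2) := by positivity
    have a7 : 0 ≤ L * (η / (L + 2)) := by positivity
    refine ⟨w, ?_, ?_⟩
    · linarith [norm_sub_le_norm_sub_add_norm_sub w (β (r n)) (β r')]
    · simp only at b2 ⊢
      linarith [a4.1]

lemma Zs_deriv {m0 : ℝ} {f : E → ℝ} {z : E} (hz : z ∈ Zs m0 f) (hd : DifferentiableAt ℝ f z) :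
    m0 ≤ ‖fderiv ℝ f z‖ := by
  apply le_of_forall_pos_le_add
  intro δ hδ
  obtain ⟨ρ0, hρ0, h1⟩ := Metric.eventually_nhds_iff_ball.1 (ev_lip f z hd _ δ le_rfl hδ)
  set β := ‖fderiv ℝ f z‖ + δ with hβ
  have hβ0 : 0 < β := by positivity
  set ρ := min (ρ0 / 3) 1 with hρ
  have hρp : 0 < ρ := lt_min (by positivity) one_pos
  have hρ3 : ρ ≤ ρ0 / 3 := min_le_left _ _
  have key : m0 * ρ ≤ β * ρ := by
    apply le_of_forall_pos_le_add
    intro ε hε
    set η := min (ρ0 / 3) (ε / (β + 1)) with hη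
    have hηp : 0 < η := lt_min (by positivity) (by positivity)
    have hη3 : η ≤ ρ0 / 3 := min_le_left _ _
    have hηε : (β + 1) * η ≤ ε := by
      have := min_le_right (ρ0 / 3) (ε / (β + 1))
      rw [← hη, le_div_iff₀ (by positivity)] at this
      linarith
    obtain ⟨w, a1, a2⟩ := hz η hηp ρ hρp (min_le_right _ _)
    have a3 := (abs_le.1 (h1 w (by rw [mem_ball, dist_eq_norm]; linarith))).2
    have a4 := mul_le_mul_of_nonneg_left a1 hβ0.le
    linarith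
  exact le_of_mul_le_mul_right key hρp

lemma Zs_per {m0 : ℝ} {f : E → ℝ} {l : E →L[ℝ] ℝ} (hq : QP l f) (k : Fin 2 → ℤ) {z : E}
    (hz : z + lat k ∈ Zs m0 f) : z ∈ Zs m0 f := by
  intro η hη ρ hρ hρ1
  obtain ⟨w, a1, a2⟩ := hz η hη ρ hρ hρ1
  refine ⟨w - lat k, ?_, ?_⟩
  · rwa [show w - lat k - z = w - (z + lat k) by abel]
  · have := hq k (w - lat k)
    rw [sub_add_cancel] at this
    rw [hq k z] at a2
    linarith

end Pool.Agent.MP_fab550_an.H99
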