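import Mathlib
import Pool.Agent.MP_fab550_an.H99.Cross

set_option autoImplicit false

namespace Pool.Agent.MP_fab550_an.H99

open Pool.Agent.MP_fab550_an.H76 MeasureTheory Metric Filter Topology Set

/-- measure of the set of levels of `g` met on `Z` along a segment -/
noncomputable def c2 (g : E → ℝ) (Z : Set E) (x y : E) : ℝ :=
  (volume (g '' (Z ∩ segment ℝ x y))).toReal

lemma vol_le (g : E → ℝ) (L : ℝ) (hL : 0 ≤ L) (lg : ∀ y y', |g y' - g y| ≤ L * ‖y' - y‖)
    (Z : Set E) (x y : E) :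
    volume (g '' (Z ∩ segment ℝ x y)) ≤ ENNReal.ofReal (2 * (L * ‖y - x‖)) := by
  rw [← Real.volume_closedBall (g x)]
  apply measure_mono
  rintro _ ⟨z, ⟨-, hz⟩, rfl⟩
  rw [mem_closedBall, Real.dist_eq]
  exact (lg x z).trans (mul_le_mul_of_nonneg_left (seg_near hz) hL)

lemma le_of_sq_le_sq_nn {x y : ℝ} (hy : 0 ≤ y) (h : x ^ 2 ≤ y ^ 2) : x ≤ y :=
  (abs_le_of_sq_le_sq' h hy).2

theorem second {m0 L : ℝ} {b A B : E → ℝ} (H : Dat m0 L b A B) (hb : Measurable b)
    (hi : ∀ y, b y ≤ L) : ∃ lam : ℝ, 1 < lam ∧ Sub b (lam • lQ) := by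
  have hm := H.hm
  have hL : 0 < L := H.hm.trans_le H.hmL
  have hb0 : ∀ y, 0 ≤ b y := fun y => hm.le.trans (H.lo y)
  let f : E → ℝ := fun y => (A y + B y) / 2
  let g : E → ℝ := fun y => (A y - B y) / 2
  have qf : QP lP f := qp_f H.qA H.qB
  have qg : QP lQ g := qp_g H.qA H.qB
  have lg : ∀ y y', |g y' - g y| ≤ L * ‖y' - y‖ := (half A B L H.lA H.lB).2
  let Z := Zs m0 f
  have hfin : ∀ x y, volume (g '' (Z ∩ segment ℝ x y)) ≠ ⊤ := fun x y =>
    ne_top_of_le_ne_top ENNReal.ofReal_ne_top (vol_le g L hL.le lg Z x y)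
  obtain ⟨C1, hC⟩ := cross H
  obtain ⟨u, hq, hu⟩ := potential (c2 g Z) (fun _ _ => True) lQ (2 * |C1|)
    (fun k x y => by
      apply ENNReal.toReal_mono (hfin x y)
      rw [← measure_preimage_add_right volume (-(lQ (lat k))) (g '' (Z ∩ segment ℝ x y))]
      apply measure_mono
      rintro _ ⟨z, ⟨hz1, hz2⟩, rfl⟩
      refine ⟨z - lat k, ⟨Zs_per qf k (by rwa [sub_add_cancel]), ?_⟩, ?_⟩
      · rw [segment_eq_image'] at hz2 ⊢
        obtain ⟨θ, hθ, rfl⟩ := hz2
        refine ⟨θ, hθ, ?_⟩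
        simp only [add_sub_add_right_eq_sub]
        abel
      · have := qg k (z - lat k)
        rw [sub_add_cancel] at this
        linarith)
    (fun _ _ _ _ => trivial)
    (fun x N _ => by
      have hc0 : 0 ≤ cst (c2 g Z) x N := Finset.sum_nonneg (fun i _ => ENNReal.toReal_nonneg)
      rcases Nat.eq_zero_or_pos N with rfl | hN
      · simp [cst]
      obtain ⟨β, hβ, β0, β1, βs⟩ := poly x N
      have hsub : Icc (lQ (x 0) + C1) (lQ (x N) - C1) ⊆
          ⋃ i ∈ Finset.range N, g '' (Z ∩ segment ℝ (x i) (x (i + 1))) := by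
        intro t ht
        obtain ⟨r, h1, h2⟩ := hC β hβ t (by rw [β0]; exact ht.1) (by rw [β1]; exact ht.2)
        simp only [mem_iUnion, Finset.mem_range]
        rcases βs r with h3 | ⟨i, hi, h3⟩
        · exact ⟨0, hN, β r, ⟨h2, by rw [h3]; exact left_mem_segment ℝ _ _⟩, h1⟩
        · exact ⟨i, hi, β r, ⟨h2, h3⟩, h1⟩
      have h1 := (measure_mono (μ := volume) hsub).trans (measure_biUnion_finset_le _ _)
      rw [Real.volume_Icc] at h1
      have h2 : cst (c2 g Z) x N =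
          (∑ i ∈ Finset.range N, volume (g '' (Z ∩ segment ℝ (x i) (x (i + 1))))).toReal := by
        rw [ENNReal.toReal_sum (fun i _ => hfin _ _)]
        rfl
      have h3 := (ENNReal.ofReal_le_iff_le_toReal
        (ENNReal.sum_ne_top.2 (fun i _ => hfin _ _))).1 h1
      rw [← h2] at h3
      linarith [le_abs_self C1])
  have hc2 : ∀ x y, c2 g Z x y ≤ 2 * L * ‖y - x‖ := fun x y => by
    have := ENNReal.toReal_le_of_le_ofReal (by positivity) (vol_le g L hL.le lg Z x y)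
    unfold c2
    linarith
  have lu : ∀ y y', |u y' - u y| ≤ 2 * L * ‖y' - y‖ := by
    intro y y'
    have a1 := hu y y' trivial
    have a2 := hu y' y trivial
    have a3 := hc2 y y'
    have a4 := hc2 y' y
    rw [norm_sub_rev] at a4
    rw [abs_le]
    constructor <;> linarith
  set κ := 1 - m0 ^ 2 / (2 * L ^ 2) with hκ
  have hq1 : m0 ^ 2 / L ^ 2 ≤ 1 := by
    rw [div_le_one (by positivity)]
    exact pow_le_pow_left₀ hm.le H.hmL 2
  have hq0 : 0 < m0 ^ 2 / L ^ 2 := by positivity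
  have hκe : κ = 1 - m0 ^ 2 / L ^ 2 / 2 := by rw [hκ]; field_simp
  have hκ0 : 0 < κ := by rw [hκe]; linarith
  have hκ1 : κ < 1 := by rw [hκe]; linarith
  have hZ : ∀ᵐ z, z ∈ Z → ‖fderiv ℝ g z‖ ≤ κ * b z := by
    filter_upwards [(lipW hL.le H.lA).ae_differentiableAt, (lipW hL.le H.lB).ae_differentiableAt,
      H.bA, H.bB] with z dA dB nA nB hz
    have df : HasFDerivAt f ((1 / 2 : ℝ) • (fderiv ℝ A z + fderiv ℝ B z)) z := by
      have := (dA.hasFDerivAt.add dB.hasFDerivAt).const_mul (1 / 2 : ℝ)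
      refine this.congr_of_eventuallyEq (Eventually.of_forall (fun y => ?_))
      simp only [f, Pi.add_apply]; ring
    have dg : HasFDerivAt g ((1 / 2 : ℝ) • (fderiv ℝ A z - fderiv ℝ B z)) z := by
      have := (dA.hasFDerivAt.sub dB.hasFDerivAt).const_mul (1 / 2 : ℝ)
      refine this.congr_of_eventuallyEq (Eventually.of_forall (fun y => ?_))
      simp only [g, Pi.sub_apply]; ring
    have hlow := Zs_deriv hz df.differentiableAt
    rw [df.fderiv, norm_smul] at hlow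
    rw [dg.fderiv, norm_smul]
    let e := (InnerProductSpace.toDual ℝ E).symm
    have h1 := parallelogram_law_with_norm ℝ (e (fderiv ℝ A z)) (e (fderiv ℝ B z))
    rw [← map_add, ← map_sub, e.norm_map, e.norm_map, e.norm_map, e.norm_map] at h1
    have n2 : ‖(1 / 2 : ℝ)‖ = 1 / 2 := by norm_num
    rw [n2] at hlow ⊢
    set p := ‖fderiv ℝ A z + fderiv ℝ B z‖
    set q := ‖fderiv ℝ A z - fderiv ℝ B z‖
    have hA2 := mul_self_le_mul_self (norm_nonneg _) nA
    have hB2 := mul_self_le_mul_self (norm_nonneg _) nB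
    have hp2 := mul_self_le_mul_self hm.le hlow
    have h2 : (1 / 2 * q) ^ 2 ≤ b z ^ 2 - m0 ^ 2 := by nlinarith
    have h3 : m0 ^ 2 / L ^ 2 * b z ^ 2 ≤ m0 ^ 2 := by
      rw [div_mul_eq_mul_div, div_le_iff₀ (by positivity)]
      exact mul_le_mul_of_nonneg_left (pow_le_pow_left₀ (hb0 z) (hi z) 2) (by positivity)
    have h4 : 1 - m0 ^ 2 / L ^ 2 ≤ κ ^ 2 := by rw [hκe]; nlinarith
    have h5 := mul_le_mul_of_nonneg_right h4 (sq_nonneg (b z))
    refine le_of_sq_le_sq_nn (mul_nonneg hκ0.le (hb0 z)) ?_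
    rw [mul_pow κ]
    linarith
  have hGm : Measurable (fun y => κ * b y) := hb.const_mul κ
  have hG0 : ∀ y, 0 ≤ κ * b y := fun y => mul_nonneg hκ0.le (hb0 y)
  have hGC : ∀ y, |κ * b y| ≤ L := fun y => by
    rw [abs_of_nonneg (hG0 y)]
    exact (mul_le_of_le_one_left (hb0 y) hκ1.le).trans (hi y)
  have lipu := lipW (by positivity) lu
  have hDu := ae_fderiv_le u (fun y => κ * b y) _ lipu hGm L hGC hG0 (fun v hv => by
    filter_upwards [seg_le g (fun y => κ * b y) _ (lipW hL.le lg) hGm L hGC hG0 Z hZ v hv]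
      with y hy h hh
    have a1 := hu y (y + h • v) trivial
    have a2 := ENNReal.toReal_le_of_le_ofReal
      (intervalIntegral.integral_nonneg hh (fun s _ => hG0 _)) (hy h hh)
    unfold c2 at a1
    linarith)
  refine ⟨κ⁻¹, (one_lt_inv₀ hκ0).2 hκ1, fun y => κ⁻¹ * u y, ⟨_, lipW
    (show 0 ≤ κ⁻¹ * (2 * L) by positivity) (fun y y' => ?_)⟩, fun k y => ?_, ?_⟩
  · rw [← mul_sub, abs_mul, abs_of_pos (inv_pos.2 hκ0), mul_assoc]
    exact mul_le_mul_of_nonneg_left (lu y y') (inv_pos.2 hκ0).le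
  · simp only [hq k y, smul_apply, smul_eq_mul]
    ring
  · filter_upwards [hDu, lipu.ae_differentiableAt] with z h1 hd
    rw [fderiv_const_mul hd, norm_smul, Real.norm_eq_abs, abs_of_pos (inv_pos.2 hκ0),
      inv_mul_le_iff₀ hκ0]
    exact h1

/-- approximate subsolutions give an exact one -/
lemma closed (b : E → ℝ) (hb : Measurable b) (M : ℝ) (hb0 : ∀ y, 0 ≤ b y) (hi : ∀ y, b y ≤ M)
    (l : E →L[ℝ] ℝ)
    (h : ∀ ε : ℝ, 0 < ε → ∃ u : E → ℝ, (∃ K, LipschitzWith K u) ∧ QP l u ∧ u 0 = 0 ∧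
      ∀ᵐ z, ‖fderiv ℝ u z‖ ≤ (1 + ε) * b z) :
    ∃ u : E → ℝ, (∀ y y', |u y' - u y| ≤ 2 * M * ‖y' - y‖) ∧ QP l u ∧
      ∀ᵐ z, ‖fderiv ℝ u z‖ ≤ b z := by
  have hM : 0 ≤ M := (hb0 0).trans (hi 0)
  let ε : ℕ → ℝ := fun n => 1 / ((n : ℝ) + 1)
  have hε : ∀ n, 0 < ε n := fun n => by positivity
  have hε1 : ∀ n, ε n ≤ 1 := fun n => by
    simp only [ε]
    rw [div_le_one (by positivity)]
    linarith [Nat.cast_nonneg (α := ℝ) n]
  have hε0 : Tendsto ε (hyperfilter ℕ : Filter ℕ) (𝓝 0) :=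
    tendsto_one_div_add_atTop_nhds_zero_nat.mono_left Nat.hyperfilter_le_atTop
  choose U hK hq hz hd using fun n => h (ε n) (hε n)
  choose K hK using hK
  have hbd : ∀ n z, (1 + ε n) * b z ≤ 2 * M := fun n z => by
    nlinarith [hε n, hε1 n, hb0 z, hi z]
  have lU : ∀ n y y', |U n y' - U n y| ≤ 2 * M * ‖y' - y‖ := fun n =>
    lip_of_ae (U n) (K n) (hK n) _ (by positivity) ((hd n).mono (fun z hz => hz.trans (hbd n z)))
  have ex : ∀ y, ∃ x, Tendsto (fun n => U n y) (hyperfilter ℕ : Filter ℕ) (𝓝 x) := fun y =>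
    ulim _ 0 (2 * M * ‖y - 0‖) (Eventually.of_forall (fun n => by
      have := lU n 0 y
      rw [hz] at this
      rwa [mem_closedBall, Real.dist_eq]))
  choose U' hU' using ex
  have lU' := lim_lip lU hU'
  refine ⟨U', lU', fun k y => ?_, ?_⟩
  · refine tendsto_nhds_unique (hU' (y + lat k)) ?_
    simp only [hq _ k y]
    exact (hU' y).add_const _
  · have hbC : ∀ y, |b y| ≤ M := fun y => by rw [abs_of_nonneg (hb0 y)]; exact hi y
    apply ae_fderiv_le U' b _ (lipW (by positivity) lU') hb M hbC hb0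
    intro v hv
    have hn : ∀ n, ∀ᵐ y, ∀ h : ℝ, 0 ≤ h →
        U n (y + h • v) - U n y ≤ ∫ s in (0 : ℝ)..h, (1 + ε n) * b (y + s • v) := fun n =>
      line_le (U n) (fun z => (1 + ε n) * b z) (K n) (hK n) (hb.const_mul _) (2 * M)
        (fun z => by
          rw [abs_of_nonneg (mul_nonneg (by linarith [hε n]) (hb0 z))]; exact hbd n z)
        (fun z => mul_nonneg (by linarith [hε n]) (hb0 z)) (hd n) v hv
    filter_upwards [ae_all_iff.2 hn] with y hy h hh
    have t1 : Tendsto (fun n => (1 + ε n) * ∫ s in (0 : ℝ)..h, b (y + s • v))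
        (hyperfilter ℕ : Filter ℕ) (𝓝 ((1 + 0) * ∫ s in (0 : ℝ)..h, b (y + s • v))) :=
      (tendsto_const_nhds.add hε0).mul_const _
    rw [add_zero, one_mul] at t1
    refine le_of_tendsto_of_tendsto' ((hU' _).sub (hU' _)) t1 (fun n => ?_)
    have := hy n h hh
    rwa [intervalIntegral.integral_const_mul] at this

end Pool.Agent.MP_fab550_an.H99
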