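import Mathlib
import Pool.Agent.MP_fab550_an.H76.Defs

set_option autoImplicit false

namespace Pool.Agent.MP_fab550_an.H99

open Pool.Agent.MP_fab550_an.H76 MeasureTheory

/-- The effective Hamiltonian with Lipschitz periodic test functions (the gradient exists almost
everywhere by Rademacher's theorem). -/
noncomputable def HbarLip (a : EuclideanSpace ℝ (Fin 2) → ℝ) (p : EuclideanSpace ℝ (Fin 2)) :
    ENNReal :=
  ⨅ (φ : EuclideanSpace ℝ (Fin 2) → ℝ) (_ : (∃ K : NNReal, LipschitzWith K φ) ∧ Per φ),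
    essSup (fun y => ENNReal.ofReal (a y * ‖p + gradient φ y‖)) volume

/-- The sublevel set `S_a` for Lipschitz test functions. -/
def SsetLip (a : EuclideanSpace ℝ (Fin 2) → ℝ) : Set (EuclideanSpace ℝ (Fin 2)) :=
  {p | HbarLip a p ≤ 1}

end Pool.Agent.MP_fab550_an.H99
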